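import Pool.Agent.H96.JCT.Stmts

/-!
Row JMP (MP_ffb5eb_co): the jump across the segment.
-/

namespace Pool.JCT

open Complex Set Topology Filter

theorem jmp_thm (h1 : DG2_S) (h2 : SEG_S) (h3 : CIR_S) : JMP_S := by
  intro Ψ
  obtain ⟨D, hD, h⟩ := h1 Ψ
  refine ⟨D, hD, fun ε hε p q hp hq hp2 hq2 => ?_⟩
  have e1 := (h2 Ψ ε p hε hp).1 hp2
  have e2 := (h2 Ψ ε q hε hq).2 hq2
  have e3 := h3 Ψ ε p hε hp
  have e4 := h ε hε p hp
  rw [e1, e2, ← e4, ← e3]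
  ring

end Pool.JCT
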